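import Pool.Agent.Lib_helper51.GL.DM
import Pool.Prelude.Def_F_25f10a9b

set_option autoImplicit false

/-!
# The third 2-adic digit of Tunnell's number at all squarefree `n ≡ 3 mod 8` with one prime factor `≡ 3 mod 4`

`A_n`, `B_n`, congruent numbers: as in the problem (`N9003ba20.A`, `N9003ba20.B`,
`N9003ba20.congruentNumber`). All cardinalities count integer vectors with all signs; all sets are finite.
-/

namespace Pool.Agent.Results.MP_05dcdc_nt.EightRankLaw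

open N9003ba20 Filter Topology Finset

/-- Tunnell's number `c(n) = 2|A_n| - |B_n|` -/
noncomputable def c (n : ℕ) : ℤ := 2 * ((A n).ncard : ℤ) - ((B n).ncard : ℤ)

/-- the statement of Q1 at `n` -/
def Q1 (n : ℕ) : Prop := Squarefree n ∧ Odd n ∧ 2 * (A n).ncard = (B n).ncard → congruentNumber n

/-- `ω(n)`: the number of prime factors of `n` -/
def w (n : ℕ) : ℕ := n.primeFactors.card

/-- `a` is a `k`-th power modulo `p` -/
def Pow (k a p : ℕ) : Prop := ∃ x : ZMod p, x ^ k = (a : ZMod p)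

/-- `m` is squarefree and all its prime factors are `≡ 1 mod 4` -/
def M (m : ℕ) : Prop := Squarefree m ∧ ∀ p : ℕ, p.Prime → p ∣ m → p % 4 = 1

/-- `n = m q` is squarefree, `n ≡ 3 mod 8`, and `q` is its only prime factor `≡ 3 mod 4` -/
def F (m q : ℕ) : Prop := M m ∧ q.Prime ∧ q % 4 = 3 ∧ (m * q) % 8 = 3

open Classical in
/-- `K(n)`, `n = m q`: the divisors `d` of `m` such that for every prime `p ∣ m` the number `d`, resp. `n / d` if
`p ∣ d`, is a square modulo `p` (the Rédei kernel) -/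
noncomputable def K (m q : ℕ) : Finset ℕ :=
  m.divisors.filter (fun d => ∀ p : ℕ, p.Prime → p ∣ m → Pow 2 (if p ∣ d then m / d * q else d) p)

open Classical in
/-- the number of the primes `p ∣ d` modulo which `n / d` is not a fourth power, `n = m q` -/
noncomputable def quart (m q d : ℕ) : ℕ := (d.primeFactors.filter (fun p => ¬ Pow 4 (m / d * q) p)).card

/-- `K(n) = {1, d}`, `d ≠ 1`, and `n / d` is not a fourth power modulo an odd number (if `d ≡ 1 mod 8`), resp. an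
even number (if `d ≡ 5 mod 8`) of the primes `p ∣ d` -/
def E (m q : ℕ) : Prop := ∃ d : ℕ, d ≠ 1 ∧ K m q = {1, d} ∧ ¬ (Even (quart m q d) ↔ d % 8 = 1)

open Classical in
/-- `N(n)`, `n = m q`: the divisors `d > 1`, `d ≡ 1 mod 8` of `m` with `2^(ω(d)+3) ∤ c(d)` and `K(n / d) = {1}` -/
noncomputable def N (m q : ℕ) : Finset ℕ :=
  m.divisors.filter (fun d => d % 8 = 1 ∧ 1 < d ∧ ¬ (2 : ℤ) ^ (w d + 3) ∣ c d ∧ K (m / d) q = {1})

open Classical in
/-- the number of the primes `q ≤ X` with `m q ≡ 3 mod 8` such that `m q` has the property `P` -/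
noncomputable def S (m : ℕ) (P : ℕ → Prop) (X : ℕ) : ℝ :=
  (((Finset.Icc 1 X).filter (fun q => q.Prime ∧ (m * q) % 8 = 3 ∧ P (m * q))).card : ℝ)

lemma c_eq (n : ℕ) : c n = PQ.c n := rfl

lemma F_iff (m q : ℕ) : F m q ↔ GL.Fam m q := by
  constructor
  · rintro ⟨hm, hq, hq4, h8⟩
    exact GL.dm_fam' m q hm hq h8
  · rintro ⟨h1, hq, hq4, h8, h5⟩
    exact ⟨⟨h1.squarefree_of_dvd (dvd_mul_right m q), h5⟩, hq, hq4, h8⟩

lemma pow_two_iff {a p : ℕ} (hp : p.Prime) (ha : ¬ p ∣ a) : Pow 2 a p ↔ jacobiSym (a : ℤ) p = 1 := by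
  have : Fact p.Prime := ⟨hp⟩
  rw [← jacobiSym.legendreSym.to_jacobiSym, legendreSym.eq_one_iff]
  · unfold Pow
    push_cast
    constructor
    · rintro ⟨x, hx⟩
      exact ⟨x, by rw [← hx, pow_two]⟩
    · rintro ⟨x, hx⟩
      exact ⟨x, by rw [hx, pow_two]⟩
  · push_cast
    rw [Ne, ZMod.natCast_eq_zero_iff]
    exact ha

lemma K_eq (m q : ℕ) (h : F m q) : K m q = GL.K m q := by
  classical
  obtain ⟨hm, hq, hq4, h8⟩ := h
  unfold K GL.K
  refine Finset.filter_congr fun d hd => ?_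
  obtain ⟨hdm, h0⟩ := Nat.mem_divisors.1 hd
  refine forall_congr' fun p => forall_congr' fun hp => forall_congr' fun hpm => ?_
  have hpq : p ≠ q := by
    rintro rfl
    have := hm.2 p hp hpm
    omega
  by_cases hpd : p ∣ d
  · rw [if_pos hpd]
    have h1 : ¬ p ∣ m / d * q := by
      intro h
      rcases (Nat.Prime.dvd_mul hp).1 h with h | h
      · obtain ⟨e, rfl⟩ := hdm
        have hd0 : 0 < d := Nat.pos_of_ne_zero (by rintro rfl; simp at h0)
        rw [Nat.mul_div_cancel_left e hd0] at h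
        have := hm.1 p (mul_dvd_mul hpd h)
        exact hp.one_lt.ne' (Nat.isUnit_iff.1 this)
      · exact hpq ((Nat.prime_dvd_prime_iff_eq hp hq).1 h)
    rw [pow_two_iff hp h1]
    exact ⟨fun h => ⟨fun h' => absurd hpd h', fun _ => h⟩, fun h => h.2 hpd⟩
  · rw [if_neg hpd, pow_two_iff hp hpd]
    exact ⟨fun h => ⟨fun _ => h, fun h' => absurd h' hpd⟩, fun h => h.1 hpd⟩

lemma F_sub {m q d : ℕ} (h : F m q) (hd : d ∣ m) (h8 : d % 8 = 1) : F (m / d) q := by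
  obtain ⟨hm, hq, hq4, h9⟩ := h
  obtain ⟨e, rfl⟩ := hd
  have hd0 : 0 < d := by omega
  rw [Nat.mul_div_cancel_left e hd0]
  refine ⟨⟨hm.1.squarefree_of_dvd (dvd_mul_left e d), fun p hp hpe => hm.2 p hp (hpe.mul_left d)⟩, hq, hq4, ?_⟩
  rw [mul_assoc, Nat.mul_mod, h8] at h9
  omega

lemma N_eq (m q : ℕ) (h : F m q) : N m q = GL.Nn m q := by
  classical
  unfold N GL.Nn
  refine Finset.filter_congr fun d hd => ?_
  have hdm := Nat.dvd_of_mem_divisors hd
  constructor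
  · rintro ⟨h1, h2, h3, h4⟩
    rw [K_eq _ _ (F_sub h hdm h1)] at h4
    exact ⟨h1, h2, h3, h4⟩
  · rintro ⟨h1, h2, h3, h4⟩
    rw [← K_eq _ _ (F_sub h hdm h1)] at h4
    exact ⟨h1, h2, h3, h4⟩

lemma E_iff (m q : ℕ) (h : F m q) : E m q ↔ GL.Eps m q := by
  unfold E GL.Eps
  rw [K_eq m q h]
  rfl

lemma c_zero {n : ℕ} (h : 2 * (A n).ncard = (B n).ncard) : c n = 0 := by
  unfold c
  have : (2 : ℤ) * ((A n).ncard : ℤ) = ((B n).ncard : ℤ) := by exact_mod_cast h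
  linarith

lemma law (m q : ℕ) (h : F m q) :
    (2 : ℤ) ^ (w (m * q) + 1) ∣ c (m * q) ∧
    ((2 : ℤ) ^ (w (m * q) + 2) ∣ c (m * q) ↔ K m q ≠ {1}) ∧
    (K m q ≠ {1} → ((2 : ℤ) ^ (w (m * q) + 3) ∣ c (m * q) ↔ (Odd (N m q).card ↔ E m q))) := by
  rw [K_eq m q h, N_eq m q h, E_iff m q h]
  exact GL.cl m q ((F_iff m q).1 h)

lemma Q1_of {n : ℕ} (h : ¬ 2 * (A n).ncard = (B n).ncard) : Q1 n := fun h' => absurd h'.2.2 h

lemma F_mod {m q q' : ℕ} (h : F m q) (hq' : q'.Prime) (hqq : q' % (8 * m) = q % (8 * m)) : F m q' := by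
  obtain ⟨hm, hq, hq4, h8⟩ := h
  have h1 : q' % 8 = q % 8 := by
    have h2 : q' % (8 * m) % 8 = q % (8 * m) % 8 := by rw [hqq]
    rwa [Nat.mod_mul_right_mod, Nat.mod_mul_right_mod] at h2
  exact ⟨hm, hq', by omega, by rw [Nat.mul_mod, h1, ← Nat.mul_mod]; exact h8⟩

lemma gcd_eq {x y : ℤ} {k : ℕ} (h : ∀ a ≤ k, ((2 : ℤ) ^ a ∣ x ↔ (2 : ℤ) ^ a ∣ y)) :
    Int.gcd x (2 ^ k) = Int.gcd y (2 ^ k) := by
  have key : ∀ x y : ℤ, (∀ a ≤ k, ((2 : ℤ) ^ a ∣ x → (2 : ℤ) ^ a ∣ y)) →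
      Int.gcd x (2 ^ k) ∣ Int.gcd y (2 ^ k) := by
    intro x y h
    have h1 : Int.gcd x (2 ^ k) ∣ 2 ^ k := by
      have h2 : ((Int.gcd x (2 ^ k) : ℕ) : ℤ) ∣ ((2 ^ k : ℕ) : ℤ) := by
        push_cast
        exact Int.gcd_dvd_right _ _
      exact Int.natCast_dvd_natCast.1 h2
    obtain ⟨j, hj, hg⟩ := (Nat.dvd_prime_pow Nat.prime_two).1 h1
    have h3 : (2 : ℤ) ^ j ∣ x := by
      have h4 : ((Int.gcd x (2 ^ k) : ℕ) : ℤ) ∣ x := Int.gcd_dvd_left _ _
      rw [hg] at h4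
      exact_mod_cast h4
    rw [hg]
    have h5 := h j hj h3
    have h6 : (2 : ℤ) ^ j ∣ 2 ^ k := pow_dvd_pow 2 hj
    have h7 : ((2 ^ j : ℕ) : ℤ) ∣ ((Int.gcd y (2 ^ k) : ℕ) : ℤ) := by
      push_cast
      exact Int.dvd_coe_gcd h5 h6
    exact Int.natCast_dvd_natCast.1 h7
  exact Nat.dvd_antisymm (key x y fun a ha => (h a ha).1) (key y x fun a ha => (h a ha).2)

/-- Let `n = m q` be squarefree, `n ≡ 3 mod 8`, with exactly one prime factor `q ≡ 3 mod 4`, and let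
`W = ω(n)`.
(1) `2^(W+1)` divides `c(n)`, and `2^(W+2)` does iff `K(n) ≠ {1}`. If so, `2^(W+3) ∣ c(n)` iff
[`|N(n)|` is odd iff `E(n)`]. So `2|A_n| ≠ |B_n|`, and Q1 holds at `n`, if `K(n) = {1}` or if not
[`|N(n)|` is odd iff `E(n)`].
(2) `gcd(c(mq), 2^(W+3))` depends only on `q mod 8m`.
(3) For every `m`, the natural densities of the cases `2^(W+2) ∤ c(mq)`, `2^(W+2) ∣ c(mq)` but
`2^(W+3) ∤ c(mq)`, `2^(W+3) ∣ c(mq)` among the primes `q` with `mq ≡ 3 mod 8` exist; they are multiples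
`a/2^W`, `b/2^W`, `e/2^W` of `1/2^W`, `a ≥ 2`, and `b, e ≥ 1` if `m > 1`. So, for `ε > 0` and `X` large, the hypothesis of
Q1 fails and Q1 is true at `mq` for a share at least `(a + b)/2^W - ε` of these `q ≤ X`. -/
theorem result :
    (∀ m q : ℕ, F m q →
      (2 : ℤ) ^ (w (m * q) + 1) ∣ c (m * q) ∧
      ((2 : ℤ) ^ (w (m * q) + 2) ∣ c (m * q) ↔ K m q ≠ {1}) ∧
      (K m q ≠ {1} → ((2 : ℤ) ^ (w (m * q) + 3) ∣ c (m * q) ↔ (Odd (N m q).card ↔ E m q))) ∧
      (K m q = {1} ∨ ¬ (Odd (N m q).card ↔ E m q) →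
        2 * (A (m * q)).ncard ≠ (B (m * q)).ncard ∧ Q1 (m * q))) ∧
    (∀ m q q' : ℕ, F m q → q'.Prime → q' % (8 * m) = q % (8 * m) →
      F m q' ∧ Int.gcd (c (m * q')) (2 ^ (w (m * q) + 3)) = Int.gcd (c (m * q)) (2 ^ (w (m * q) + 3))) ∧
    (∀ m : ℕ, M m → ∃ a b e : ℕ, a + b + e = 2 ^ (w m + 1) ∧ 2 ≤ a ∧ (1 < m → 1 ≤ b ∧ 1 ≤ e) ∧
      Tendsto (fun X => S m (fun n => ¬ (2 : ℤ) ^ (w m + 3) ∣ c n) X / S m (fun _ => True) X) atTop
        (𝓝 (a / 2 ^ (w m + 1))) ∧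
      Tendsto (fun X => S m (fun n => (2 : ℤ) ^ (w m + 3) ∣ c n ∧ ¬ (2 : ℤ) ^ (w m + 4) ∣ c n) X /
        S m (fun _ => True) X) atTop (𝓝 (b / 2 ^ (w m + 1))) ∧
      Tendsto (fun X => S m (fun n => (2 : ℤ) ^ (w m + 4) ∣ c n) X / S m (fun _ => True) X) atTop
        (𝓝 (e / 2 ^ (w m + 1))) ∧
      (∀ ε : ℝ, 0 < ε → ∀ᶠ X : ℕ in atTop,
        S m (fun n => 2 * (A n).ncard = (B n).ncard) X ≤
          ((e : ℝ) / 2 ^ (w m + 1) + ε) * S m (fun _ => True) X ∧
        (((a + b : ℕ) : ℝ) / 2 ^ (w m + 1) - ε) * S m (fun _ => True) X ≤ S m Q1 X)) := by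
  refine ⟨?_, ?_, ?_⟩
  · intro m q h
    obtain ⟨h1, h2, h3⟩ := law m q h
    refine ⟨h1, h2, h3, ?_⟩
    intro h4
    have h5 : ¬ 2 * (A (m * q)).ncard = (B (m * q)).ncard := by
      intro h6
      have h7 := c_zero h6
      by_cases hK : K m q = {1}
      · exact (h2.1 (by rw [h7]; exact dvd_zero _)) hK
      · rcases h4 with h4 | h4
        · exact hK h4
        · exact h4 ((h3 hK).1 (by rw [h7]; exact dvd_zero _))
    exact ⟨h5, Q1_of h5⟩
  · intro m q q' h hq' hqq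
    have h' := F_mod h hq' hqq
    refine ⟨h', ?_⟩
    obtain ⟨e1, -, e3, e4⟩ := GL.dk m h.1 q' q hqq
    have hw : w (m * q') = w (m * q) := by
      have h5 := GL.cl_wq ((F_iff m q').1 h')
      have h6 := GL.cl_wq ((F_iff m q).1 h)
      exact h5.trans h6.symm
    obtain ⟨h1, h2, h3⟩ := law m q h
    obtain ⟨h1', h2', h3'⟩ := law m q' h'
    rw [hw] at h1' h2' h3'
    rw [K_eq m q h] at h2 h3
    rw [N_eq m q h, E_iff m q h] at h3
    rw [K_eq m q' h', e1] at h2' h3'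
    rw [N_eq m q' h', e3, E_iff m q' h', e4] at h3'
    apply gcd_eq
    intro a ha
    rcases Nat.lt_or_ge a (w (m * q) + 2) with ha1 | ha1
    · have h5 : (2 : ℤ) ^ a ∣ 2 ^ (w (m * q) + 1) := pow_dvd_pow 2 (by omega)
      exact ⟨fun _ => h5.trans h1, fun _ => h5.trans h1'⟩
    · rcases Nat.lt_or_ge a (w (m * q) + 3) with ha2 | ha2
      · have ha3 : a = w (m * q) + 2 := by omega
        rw [ha3, h2, h2']
      · have ha3 : a = w (m * q) + 3 := by omega
        rw [ha3]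
        have h6 : (2 : ℤ) ^ (w (m * q) + 2) ∣ 2 ^ (w (m * q) + 3) := pow_dvd_pow 2 (by omega)
        by_cases hK : GL.K m q = {1}
        · constructor
          · intro h7
            exact absurd hK (h2'.1 (h6.trans h7))
          · intro h7
            exact absurd hK (h2.1 (h6.trans h7))
        · rw [h3 hK, h3' hK]
  · intro m hm
    have hSP : ∀ (P P' : ℕ → Prop) (X : ℕ), (∀ n, P n → P' n) → S m P X ≤ S m P' X := by
      intro P P' X h
      unfold S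
      norm_cast
      apply Finset.card_le_card
      intro q hq
      simp only [Finset.mem_filter] at hq ⊢
      exact ⟨hq.1, hq.2.1, hq.2.2.1, h _ hq.2.2.2⟩
    have hT : ∀ X : ℕ, S m (fun _ => True) X =
        (((PQ.prm X).filter (fun q => (m * q) % 8 = 3)).card : ℝ) := by
      intro X
      unfold S PQ.prm
      rw [Finset.filter_filter]
      congr 2
      ext q
      simp only [Finset.mem_filter, and_true]
    obtain ⟨a, b, e, habe, ha, hbe, f1, f2, f3⟩ := GL.dm m hm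
    have hA1 : ∀ X : ℕ, S m (fun n => ¬ (2 : ℤ) ^ (w m + 3) ∣ c n) X =
        (((PQ.prm X).filter (fun q => (m * q) % 8 = 3 ∧
          ¬ (2 : ℤ) ^ (GL.w m + 3) ∣ PQ.c (m * q))).card : ℝ) := by
      intro X
      unfold S PQ.prm
      rw [Finset.filter_filter]
      congr 2
      ext q
      simp only [Finset.mem_filter]
      exact Iff.rfl
    have hA2 : ∀ X : ℕ, S m (fun n => (2 : ℤ) ^ (w m + 3) ∣ c n ∧ ¬ (2 : ℤ) ^ (w m + 4) ∣ c n) X =
        (((PQ.prm X).filter (fun q => (m * q) % 8 = 3 ∧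
          ((2 : ℤ) ^ (GL.w m + 3) ∣ PQ.c (m * q) ∧ ¬ (2 : ℤ) ^ (GL.w m + 4) ∣ PQ.c (m * q)))).card : ℝ) := by
      intro X
      unfold S PQ.prm
      rw [Finset.filter_filter]
      congr 2
      ext q
      simp only [Finset.mem_filter]
      exact Iff.rfl
    have hA3 : ∀ X : ℕ, S m (fun n => (2 : ℤ) ^ (w m + 4) ∣ c n) X =
        (((PQ.prm X).filter (fun q => (m * q) % 8 = 3 ∧
          (2 : ℤ) ^ (GL.w m + 4) ∣ PQ.c (m * q))).card : ℝ) := by
      intro X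
      unfold S PQ.prm
      rw [Finset.filter_filter]
      congr 2
      ext q
      simp only [Finset.mem_filter]
      exact Iff.rfl
    have g1 : Tendsto (fun X => S m (fun n => ¬ (2 : ℤ) ^ (w m + 3) ∣ c n) X / S m (fun _ => True) X) atTop
        (𝓝 (a / 2 ^ (w m + 1))) := by
      refine f1.congr fun X => ?_
      rw [hA1, hT]
    have g2 : Tendsto (fun X => S m (fun n => (2 : ℤ) ^ (w m + 3) ∣ c n ∧ ¬ (2 : ℤ) ^ (w m + 4) ∣ c n) X /
        S m (fun _ => True) X) atTop (𝓝 (b / 2 ^ (w m + 1))) := by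
      refine f2.congr fun X => ?_
      rw [hA2, hT]
    have g3 : Tendsto (fun X => S m (fun n => (2 : ℤ) ^ (w m + 4) ∣ c n) X / S m (fun _ => True) X) atTop
        (𝓝 (e / 2 ^ (w m + 1))) := by
      refine f3.congr fun X => ?_
      rw [hA3, hT]
    refine ⟨a, b, e, habe, ha, hbe, g1, g2, g3, ?_⟩
    intro ε hε
    have h1 : ∀ᶠ X : ℕ in atTop, S m (fun n => (2 : ℤ) ^ (w m + 4) ∣ c n) X / S m (fun _ => True) X <
        (e : ℝ) / 2 ^ (w m + 1) + ε := g3.eventually_lt_const (by linarith)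
    filter_upwards [h1] with X hX
    have h0 : 0 ≤ S m (fun _ => True) X := by unfold S; positivity
    have h2 : S m (fun n => 2 * (A n).ncard = (B n).ncard) X ≤ S m (fun n => (2 : ℤ) ^ (w m + 4) ∣ c n) X :=
      hSP _ _ X fun n hn => by rw [c_zero hn]; exact dvd_zero _
    have h3 : S m (fun n => (2 : ℤ) ^ (w m + 4) ∣ c n) X ≤
        ((e : ℝ) / 2 ^ (w m + 1) + ε) * S m (fun _ => True) X := by
      rcases h0.eq_or_lt with h4 | h4
      · have := hSP (fun n => (2 : ℤ) ^ (w m + 4) ∣ c n) (fun _ => True) X fun _ _ => trivial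
        rw [← h4] at this ⊢
        linarith
      · rw [div_lt_iff₀ h4] at hX
        exact hX.le
    have h5 : S m (fun _ => True) X ≤ S m Q1 X + S m (fun n => 2 * (A n).ncard = (B n).ncard) X := by
      unfold S
      norm_cast
      refine le_trans (Finset.card_le_card ?_) (Finset.card_union_le _ _)
      intro q hq
      simp only [Finset.mem_filter, Finset.mem_union] at hq ⊢
      by_cases hc : 2 * (A (m * q)).ncard = (B (m * q)).ncard
      · exact Or.inr ⟨hq.1, hq.2.1, hq.2.2.1, hc⟩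
      · exact Or.inl ⟨hq.1, hq.2.1, hq.2.2.1, Q1_of hc⟩
    have h6 : ((a + b : ℕ) : ℝ) / 2 ^ (w m + 1) = 1 - (e : ℝ) / 2 ^ (w m + 1) := by
      have h7 : ((a + b : ℕ) : ℝ) + e = 2 ^ (w m + 1) := by exact_mod_cast habe
      have h8 : (0 : ℝ) < 2 ^ (w m + 1) := by positivity
      rw [eq_sub_iff_add_eq, ← add_div, h7, div_self h8.ne']
    constructor
    · linarith
    · rw [h6]
      linarith

end Pool.Agent.Results.MP_05dcdc_nt.EightRankLaw
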