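import Pool.Agent.Lib_helper60.AVM.FI
import Pool.Agent.Lib_helper78.AVM.NU2
import Pool.Prelude.Def_F_25f10a9b

set_option autoImplicit false

/-!
# Tunnell's number `c(n) = 2|A_n| - |B_n|` at the numbers `n ≡ 3 mod 8` with one prime factor `≡ 3 mod 4`

`A_n`, `B_n`, congruent numbers: as in the problem (`N9003ba20.A`, `N9003ba20.B`,
`N9003ba20.congruentNumber`). All cardinalities count integer vectors with all signs; all sets are finite.
-/

namespace Pool.Agent.Results.MP_05dcdc_nt.EveryNumberOfPrimes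

open N9003ba20 Filter Topology Finset

/-- Tunnell's number `c(n) = 2|A_n| - |B_n|` -/
noncomputable def c (n : ℕ) : ℤ := 2 * ((A n).ncard : ℤ) - ((B n).ncard : ℤ)

/-- the statement of Q1 at `n` -/
def Q1 (n : ℕ) : Prop := Squarefree n ∧ Odd n ∧ 2 * (A n).ncard = (B n).ncard → congruentNumber n

open Classical in
/-- `S_k`: the squarefree `n ≤ X`, `n ≡ 3 mod 8`, with `k` prime factors `≡ 1 mod 4` and one prime factor
`≡ 3 mod 4` -/
noncomputable def S (k X : ℕ) : Finset ℕ :=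
  (Icc 1 X).filter (fun n => n % 8 = 3 ∧ Squarefree n ∧ (n.primeFactors.filter (fun p => p % 4 = 1)).card = k ∧
    (n.primeFactors.filter (fun p => p % 4 = 3)).card = 1)

open Classical in
/-- the number of the `n ≤ X` in `S_k` with the property `P` -/
noncomputable def N (k : ℕ) (P : ℕ → Prop) (X : ℕ) : ℝ := (((S k X).filter P).card : ℝ)

/-- `p(k, r)`: among the symmetric `k × k` matrices over `𝔽₂`, the share of those with a kernel of order `2^r` -/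
noncomputable def p (k r : ℕ) : ℝ :=
  ((univ.filter (fun M : Matrix (Fin k) (Fin k) (ZMod 2) => M.transpose = M ∧
    (univ.filter (fun x : Fin k → ZMod 2 => M.mulVec x = 0)).card = 2 ^ r)).card : ℝ) /
  ((univ.filter (fun M : Matrix (Fin k) (Fin k) (ZMod 2) => M.transpose = M)).card : ℝ)

lemma S_eq (k X : ℕ) : S k X = AVM.SS k X := rfl

lemma p_eq (k r : ℕ) : p k r = AVM.PS k r := by
  unfold p AVM.PS AVM.NS AVM.kc
  rw [AVM.ns_card]
  push_cast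
  rfl

lemma N_eq (k X : ℕ) (P : ℕ → Prop) (h : DecidablePred P) : (((@filter ℕ P h (AVM.SS k X)).card : ℕ) : ℝ) = N k P X := by
  have e : @filter ℕ P h (AVM.SS k X) = @filter ℕ P (fun n => Classical.propDecidable (P n)) (S k X) := by
    ext n
    exact (@mem_filter ℕ P h (AVM.SS k X) n).trans
      (@mem_filter ℕ P (fun n => Classical.propDecidable (P n)) (S k X) n).symm
  rw [e]
  rfl

lemma c_zero {n : ℕ} (h : 2 * (A n).ncard = (B n).ncard) : c n = 0 := by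
  unfold c
  have : (2 : ℤ) * ((A n).ncard : ℤ) = ((B n).ncard : ℤ) := by exact_mod_cast h
  linarith

lemma Q1_of {n : ℕ} (h : ¬ 2 * (A n).ncard = (B n).ncard) : Q1 n := fun h' => absurd h'.2.2 h

lemma N_mono {k : ℕ} {P Q : ℕ → Prop} (X : ℕ) (h : ∀ n, P n → Q n) : N k P X ≤ N k Q X := by
  classical
  unfold N
  norm_cast
  apply card_le_card
  intro n hn
  rw [mem_filter] at hn ⊢
  exact ⟨hn.1, h n hn.2⟩

lemma N_congr {k : ℕ} {P Q : ℕ → Prop} (X : ℕ) (h : ∀ n ∈ S k X, (P n ↔ Q n)) : N k P X = N k Q X := by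
  classical
  unfold N
  congr 1
  congr 1
  ext n
  rw [mem_filter, mem_filter]
  exact and_congr_right fun hn => h n hn

lemma N_add {k : ℕ} (P Q : ℕ → Prop) (X : ℕ) (h : ∀ n, P n ∨ Q n) (h' : ∀ n, ¬ (P n ∧ Q n)) :
    N k P X + N k Q X = (S k X).card := by
  classical
  unfold N
  norm_cast
  rw [← card_union_of_disjoint]
  · congr 1
    ext n
    simp only [mem_union, mem_filter]
    constructor
    · rintro (hn | hn)
      · exact hn.1
      · exact hn.1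
    · intro hn
      rcases h n with h1 | h1
      · exact Or.inl ⟨hn, h1⟩
      · exact Or.inr ⟨hn, h1⟩
  · rw [Finset.disjoint_left]
    intro n hn hn'
    exact h' n ⟨(mem_filter.1 hn).2, (mem_filter.1 hn').2⟩

lemma two (k X : ℕ) : N k (fun n => ¬ (2 : ℤ) ^ (k + 3) ∣ c n) X +
    N k (fun n => (2 : ℤ) ^ (k + 3) ∣ c n ∧ ¬ (2 : ℤ) ^ (k + 4) ∣ c n) X =
    N k (fun n => ¬ (2 : ℤ) ^ (k + 4) ∣ c n) X := by
  classical
  have hd : (2 : ℤ) ^ (k + 3) ∣ 2 ^ (k + 4) := pow_dvd_pow 2 (by omega)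
  unfold N
  norm_cast
  rw [← card_union_of_disjoint]
  · congr 1
    ext n
    simp only [mem_union, mem_filter]
    constructor
    · rintro (hn | hn)
      · exact ⟨hn.1, fun h => hn.2 (hd.trans h)⟩
      · exact ⟨hn.1, hn.2.2⟩
    · rintro ⟨hn, h⟩
      by_cases h' : (2 : ℤ) ^ (k + 3) ∣ c n
      · exact Or.inr ⟨hn, h', h⟩
      · exact Or.inl ⟨hn, h'⟩
  · rw [Finset.disjoint_left]
    intro n hn hn'
    exact (mem_filter.1 hn).2 (mem_filter.1 hn').2.1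

lemma three (k X : ℕ) : N k (fun n => ¬ (2 : ℤ) ^ (k + 3) ∣ c n) X +
    N k (fun n => (2 : ℤ) ^ (k + 3) ∣ c n ∧ ¬ (2 : ℤ) ^ (k + 4) ∣ c n) X +
    N k (fun n => (2 : ℤ) ^ (k + 4) ∣ c n) X = (S k X).card := by
  rw [two, N_add _ _ X (fun n => (em _).symm) (fun n h => h.1 h.2)]

lemma sq {s n1 n2 n3 d : ℝ} (h : n1 + n2 + n3 = s) (h1 : s / 2 - d ≤ n1) (h2 : s / 4 - d ≤ n2)
    (h3 : s / 4 - d ≤ n3) (hd : 0 < d) :
    (s / 4 - 4 * d < n2 ∧ n2 < s / 4 + 4 * d) ∧ (s / 4 - 4 * d < n3 ∧ n3 < s / 4 + 4 * d) := by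
  refine ⟨⟨?_, ?_⟩, ?_, ?_⟩ <;> linarith

/-- the limit of the first digit with `ε` -/
lemma first {k : ℕ} {ε : ℝ} (hε : 0 < ε)
    (h : Tendsto (fun X : ℕ => N k (fun n => ¬ (2 : ℤ) ^ (k + 3) ∣ c n) X / (S k X).card) atTop (𝓝 (p k 0))) :
    ∀ᶠ X : ℕ in atTop, (p k 0 - ε) * (S k X).card ≤ N k (fun n => ¬ (2 : ℤ) ^ (k + 3) ∣ c n) X := by
  filter_upwards [h.eventually_const_lt (show p k 0 - ε < p k 0 by linarith)] with X hX
  rcases (Nat.cast_nonneg (α := ℝ) (S k X).card).eq_or_lt with h0 | h0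
  · rw [← h0, mul_zero]
    unfold N
    positivity
  · rw [lt_div_iff₀ h0] at hX
    exact hX.le

/-- Let `S_k` be the set of the squarefree `n ≡ 3 mod 8` with `k` prime factors `≡ 1 mod 4` and exactly one prime
factor `≡ 3 mod 4`, and `p(k, r)` the probability that a random symmetric `k × k` matrix over `𝔽₂` has corank `r`.
For every `k`:
(1) `2^(k+2)` divides `c(n)` for all `n ∈ S_k`; `2^(k+3) ∤ c(n)` for a share `p(k, 0)` of them, in natural density.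
(2) For `ε > 0` and `X` large, `2^(k+3) ∣ c(n)`, `2^(k+4) ∤ c(n)` for a share at least `p(k, 1)/2 - ε` of the
`n ≤ X` in `S_k`, and `2^(k+4) ∣ c(n)` for a share at least `p(k, 1)/2 - ε`.
(3) So Q1 is true for a share at least `p(k, 0) + p(k, 1)/2 - ε` of the `n ≤ X` in `S_k`, and its hypothesis
`2|A_n| = |B_n|` holds for a share at most `1 - p(k, 0) - p(k, 1)/2 + ε`.
(4) `p(k, 0) = ∏ (1 - 1/2^j)` over the odd `j ≤ k`, `p(k, 1) = 2 p(k+1, 0) - p(k, 0)`, and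
`p(k, 0) + p(k, 1)/2 > 5/8` for all `k`.
(5) `S_1` is the set of the `n ≡ 3 mod 8` which are products of two primes. There `c(n) ≡ 8 mod 16` for one half,
`c(n) ≡ 16 mod 32` for one quarter, `c(n) ≡ 0 mod 32` for one quarter, in natural density. -/
theorem result :
    (∀ k : ℕ,
      (∀ n X : ℕ, n ∈ S k X → (2 : ℤ) ^ (k + 2) ∣ c n) ∧
      (∀ᶠ X : ℕ in atTop, 0 < (S k X).card) ∧
      Tendsto (fun X : ℕ => N k (fun n => ¬ (2 : ℤ) ^ (k + 3) ∣ c n) X / (S k X).card) atTop (𝓝 (p k 0)) ∧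
      (∀ ε : ℝ, 0 < ε → ∀ᶠ X : ℕ in atTop,
        (p k 1 / 2 - ε) * (S k X).card ≤ N k (fun n => (2 : ℤ) ^ (k + 3) ∣ c n ∧ ¬ (2 : ℤ) ^ (k + 4) ∣ c n) X ∧
        (p k 1 / 2 - ε) * (S k X).card ≤ N k (fun n => (2 : ℤ) ^ (k + 4) ∣ c n) X ∧
        (p k 0 + p k 1 / 2 - ε) * (S k X).card ≤ N k Q1 X ∧
        N k (fun n => 2 * (A n).ncard = (B n).ncard) X ≤ (1 - p k 0 - p k 1 / 2 + ε) * (S k X).card) ∧
      p k 0 = ∏ j ∈ range ((k + 1) / 2), (1 - 1 / 2 ^ (2 * j + 1) : ℝ) ∧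
      p k 1 = 2 * p (k + 1) 0 - p k 0 ∧
      (5 : ℝ) / 8 < p k 0 + p k 1 / 2) ∧
    (∀ n X : ℕ, n ∈ S 1 X ↔ n ≤ X ∧ n % 8 = 3 ∧ ∃ p q : ℕ, p.Prime ∧ q.Prime ∧ n = p * q) ∧
    Tendsto (fun X : ℕ => N 1 (fun n => c n % 16 = 8) X / (S 1 X).card) atTop (𝓝 (1 / 2)) ∧
    Tendsto (fun X : ℕ => N 1 (fun n => c n % 32 = 16) X / (S 1 X).card) atTop (𝓝 (1 / 4)) ∧
    Tendsto (fun X : ℕ => N 1 (fun n => c n % 32 = 0) X / (S 1 X).card) atTop (𝓝 (1 / 4)) := by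
  classical
  have hall : ∀ k : ℕ,
      (∀ n X : ℕ, n ∈ S k X → (2 : ℤ) ^ (k + 2) ∣ c n) ∧
      (∀ᶠ X : ℕ in atTop, 0 < (S k X).card) ∧
      Tendsto (fun X : ℕ => N k (fun n => ¬ (2 : ℤ) ^ (k + 3) ∣ c n) X / (S k X).card) atTop (𝓝 (p k 0)) ∧
      (∀ ε : ℝ, 0 < ε → ∀ᶠ X : ℕ in atTop,
        (p k 1 / 2 - ε) * (S k X).card ≤ N k (fun n => (2 : ℤ) ^ (k + 3) ∣ c n ∧ ¬ (2 : ℤ) ^ (k + 4) ∣ c n) X ∧
        (p k 1 / 2 - ε) * (S k X).card ≤ N k (fun n => (2 : ℤ) ^ (k + 4) ∣ c n) X ∧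
        (p k 0 + p k 1 / 2 - ε) * (S k X).card ≤ N k Q1 X ∧
        N k (fun n => 2 * (A n).ncard = (B n).ncard) X ≤ (1 - p k 0 - p k 1 / 2 + ε) * (S k X).card) := by
    intro k
    have h1 : Tendsto (fun X : ℕ => N k (fun n => ¬ (2 : ℤ) ^ (k + 3) ∣ c n) X / (S k X).card) atTop
        (𝓝 (p k 0)) := by
      rw [p_eq]
      have h := AVM.fi_one k
      refine h.congr fun X => ?_
      rw [← S_eq]
      congr 1
      exact N_eq k X _ _
    have hpos : ∀ᶠ X : ℕ in atTop, 0 < (S k X).card := AVM.ss_pos k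
    refine ⟨fun n X hn => AVM.ss_dvd k X n hn, hpos, h1, ?_⟩
    intro ε hε
    obtain ⟨X₀, h2⟩ := AVM.fi_two k (ε / 2) (by positivity)
    filter_upwards [eventually_ge_atTop X₀, first (show 0 < ε / 2 by positivity) h1] with X hX h3
    obtain ⟨h4, h5⟩ := h2 X hX
    have h4' : (p k 1 / 2 - ε / 2) * (S k X).card ≤
        N k (fun n => (2 : ℤ) ^ (k + 3) ∣ c n ∧ ¬ (2 : ℤ) ^ (k + 4) ∣ c n) X := by
      rw [p_eq]
      exact le_trans h4 (le_of_eq (N_eq k X _ _))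
    have h5' : (p k 1 / 2 - ε / 2) * (S k X).card ≤ N k (fun n => (2 : ℤ) ^ (k + 4) ∣ c n) X := by
      rw [p_eq]
      exact le_trans h5 (le_of_eq (N_eq k X _ _))
    have h0 : (0 : ℝ) ≤ (S k X).card := Nat.cast_nonneg _
    have hε0 : 0 ≤ ε / 2 * (S k X).card := by positivity
    have h6 : N k (fun n => ¬ (2 : ℤ) ^ (k + 4) ∣ c n) X + N k (fun n => (2 : ℤ) ^ (k + 4) ∣ c n) X =
        (S k X).card := N_add _ _ X (fun n => (em _).symm) (fun n h => h.1 h.2)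
    have h7 := two k X
    have h8 : N k (fun n => 2 * (A n).ncard = (B n).ncard) X ≤ N k (fun n => (2 : ℤ) ^ (k + 4) ∣ c n) X :=
      N_mono X fun n hn => by rw [c_zero hn]; exact dvd_zero _
    have h9 : N k (fun n => ¬ (2 : ℤ) ^ (k + 4) ∣ c n) X ≤ N k Q1 X :=
      N_mono X fun n hn => Q1_of fun h => hn (by rw [c_zero h]; exact dvd_zero _)
    refine ⟨?_, ?_, ?_, ?_⟩
    · linarith
    · linarith
    · linarith
    · linarith
  have hp0 : ∀ k : ℕ, p k 0 = ∏ j ∈ range ((k + 1) / 2), (1 - 1 / 2 ^ (2 * j + 1) : ℝ) := by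
    intro k
    rw [p_eq, AVM.ns_zero]
  have hp1 : ∀ k : ℕ, p k 1 = 2 * p (k + 1) 0 - p k 0 := by
    intro k
    rw [p_eq, p_eq, p_eq, (AVM.ns_rec k).1]
    ring
  have hS1 : ∀ n X : ℕ, n ∈ S 1 X ↔ n ≤ X ∧ n % 8 = 3 ∧ ∃ p q : ℕ, p.Prime ∧ q.Prime ∧ n = p * q :=
    AVM.ss_one
  have e10 : p 1 0 = 1 / 2 := by rw [hp0]; norm_num
  have e11 : p 1 1 = 1 / 2 := by
    rw [hp1, hp0, hp0]
    norm_num [Finset.prod_range_succ]
  obtain ⟨g1, g2, g3, g4⟩ := hall 1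
  refine ⟨fun k => ⟨(hall k).1, (hall k).2.1, (hall k).2.2.1, (hall k).2.2.2, hp0 k, hp1 k, ?_⟩, hS1, ?_, ?_, ?_⟩
  · have := AVM.ns_bound k
    rw [p_eq, p_eq]
    exact this
  · rw [← e10]
    refine g3.congr fun X => ?_
    congr 1
    refine N_congr X fun n hn => ?_
    have h := g1 n X hn
    norm_num at h ⊢
    omega
  · have h16 : ∀ X : ℕ, N 1 (fun n => c n % 32 = 16) X =
        N 1 (fun n => (2 : ℤ) ^ (1 + 3) ∣ c n ∧ ¬ (2 : ℤ) ^ (1 + 4) ∣ c n) X := by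
      intro X
      refine N_congr X fun n hn => ?_
      norm_num
      omega
    rw [Metric.tendsto_atTop]
    intro ε hε
    obtain ⟨X₀, hX₀⟩ := eventually_atTop.1 ((g4 (ε / 4) (by positivity)).and
      ((first (show 0 < ε / 4 by positivity) g3).and g2))
    refine ⟨X₀, fun X hX => ?_⟩
    obtain ⟨⟨a1, a2, -, -⟩, a3, a4⟩ := hX₀ X hX
    have a4' : (0 : ℝ) < (S 1 X).card := by exact_mod_cast a4
    have a5 := three 1 X
    rw [e11] at a1 a2
    rw [e10] at a3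
    rw [h16, Real.dist_eq, abs_lt]
    have a6 : 0 < ε / 4 * (S 1 X).card := by positivity
    have b1 : ((1 : ℝ) / 2 / 2 - ε / 4) * (S 1 X).card = (S 1 X).card / 4 - ε / 4 * (S 1 X).card := by ring
    have b2 : ((1 : ℝ) / 2 - ε / 4) * (S 1 X).card = (S 1 X).card / 2 - ε / 4 * (S 1 X).card := by ring
    have b3 : ((1 : ℝ) / 4 - ε) * (S 1 X).card = (S 1 X).card / 4 - 4 * (ε / 4 * (S 1 X).card) := by ring
    have b4 : ((1 : ℝ) / 4 + ε) * (S 1 X).card = (S 1 X).card / 4 + 4 * (ε / 4 * (S 1 X).card) := by ring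
    rw [b1] at a1 a2
    rw [b2] at a3
    obtain ⟨⟨q1, q2⟩, q3, q4⟩ := sq a5 a3 a1 a2 a6
    rw [← b3] at q1 q3
    rw [← b4] at q2 q4
    constructor
    · rw [← lt_div_iff₀ a4'] at q1
      linarith
    · rw [← div_lt_iff₀ a4'] at q2
      linarith
  · have h0 : ∀ X : ℕ, N 1 (fun n => c n % 32 = 0) X = N 1 (fun n => (2 : ℤ) ^ (1 + 4) ∣ c n) X := by
      intro X
      refine N_congr X fun n hn => ?_
      norm_num
    rw [Metric.tendsto_atTop]
    intro ε hε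
    obtain ⟨X₀, hX₀⟩ := eventually_atTop.1 ((g4 (ε / 4) (by positivity)).and
      ((first (show 0 < ε / 4 by positivity) g3).and g2))
    refine ⟨X₀, fun X hX => ?_⟩
    obtain ⟨⟨a1, a2, -, -⟩, a3, a4⟩ := hX₀ X hX
    have a4' : (0 : ℝ) < (S 1 X).card := by exact_mod_cast a4
    have a5 := three 1 X
    rw [e11] at a1 a2
    rw [e10] at a3
    rw [h0, Real.dist_eq, abs_lt]
    have a6 : 0 < ε / 4 * (S 1 X).card := by positivity
    have b1 : ((1 : ℝ) / 2 / 2 - ε / 4) * (S 1 X).card = (S 1 X).card / 4 - ε / 4 * (S 1 X).card := by ring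
    have b2 : ((1 : ℝ) / 2 - ε / 4) * (S 1 X).card = (S 1 X).card / 2 - ε / 4 * (S 1 X).card := by ring
    have b3 : ((1 : ℝ) / 4 - ε) * (S 1 X).card = (S 1 X).card / 4 - 4 * (ε / 4 * (S 1 X).card) := by ring
    have b4 : ((1 : ℝ) / 4 + ε) * (S 1 X).card = (S 1 X).card / 4 + 4 * (ε / 4 * (S 1 X).card) := by ring
    rw [b1] at a1 a2
    rw [b2] at a3
    obtain ⟨⟨q1, q2⟩, q3, q4⟩ := sq a5 a3 a1 a2 a6
    rw [← b3] at q1 q3
    rw [← b4] at q2 q4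
    constructor
    · rw [← lt_div_iff₀ a4'] at q3
      linarith
    · rw [← div_lt_iff₀ a4'] at q4
      linarith

end Pool.Agent.Results.MP_05dcdc_nt.EveryNumberOfPrimes
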