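import Pool.Agent.Lib_helper7.GNF.P.RS
import Pool.Agent.Lib_helper7.GNF.P.GF

set_option autoImplicit false

/-!
# Genus formulas for Tunnell's numbers: two binary digits for every squarefree `n ≡ 1, 3 mod 8`

`A_n`, `B_n`, congruent numbers: as in the problem (`N9003ba20.A`, `N9003ba20.B`,
`N9003ba20.congruentNumber`). All cardinalities count integer vectors with all signs; all sets are finite.
-/

namespace Pool.Agent.Results.MP_05dcdc_nt.GenusFormula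

open N9003ba20 Finset

/-- Tunnell's number `c(n) = 2|A_n| - |B_n|` -/
noncomputable def c (n : ℕ) : ℤ := 2 * ((A n).ncard : ℤ) - ((B n).ncard : ℤ)

/-- Tunnell's number of `2n`: twice the number of `(x, y, z) ∈ ℤ³` with `n = 4x² + y² + 32z²` minus the
number of those with `n = 4x² + y² + 8z²` -/
noncomputable def c' (n : ℕ) : ℤ :=
  2 * (({v : ℤ × ℤ × ℤ | (n : ℤ) = 4 * v.1 ^ 2 + v.2.1 ^ 2 + 32 * v.2.2 ^ 2}).ncard : ℤ) -
    (({v : ℤ × ℤ × ℤ | (n : ℤ) = 4 * v.1 ^ 2 + v.2.1 ^ 2 + 8 * v.2.2 ^ 2}).ncard : ℤ)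

/-- `h(m)`: the number of ideal classes of `ℤ[√-m]` -/
noncomputable def h (m : ℕ) [NeZero m] : ℤ := (Nat.card (ClassGroup (Zsqrtd (-(m : ℤ)))) : ℤ)

/-- `ω(n)`: the number of prime factors of `n` -/
def w (n : ℕ) : ℕ := n.primeFactors.card

/-- the sign `e(d) = (-1)^(k/2) ∏ s(p)`, product over the primes `p ∣ d`, where `k` is the number of
primes `p ∣ d`, `p ≡ 3 mod 4` -/
def e (s : ℕ → ℤ) (d : ℕ) : ℤ :=
  (-1) ^ ((d.primeFactors.filter (fun p => p % 4 = 3)).card / 2) * ∏ p ∈ d.primeFactors, s p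

/-- `M(n)`: the divisors `d` of `n` with `1 < d < n` and `d ≡ 1 mod 8` -/
def M (n : ℕ) : Finset ℕ := n.divisors.filter (fun d => d % 8 = 1 ∧ 1 < d ∧ d < n)

lemma c_eq (n : ℕ) : c n = GNF.tc n := rfl

lemma c'_eq (n : ℕ) : c' n = GNF.ce n := by
  unfold c' GNF.ce
  have e1 : C (2 * n) = {v : ℤ × ℤ × ℤ | (n : ℤ) = 4 * v.1 ^ 2 + v.2.1 ^ 2 + 32 * v.2.2 ^ 2} := by
    ext ⟨x, y, z⟩
    simp only [C, Set.mem_setOf_eq]
    push_cast
    constructor <;> intro h <;> linarith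
  have e2 : D (2 * n) = {v : ℤ × ℤ × ℤ | (n : ℤ) = 4 * v.1 ^ 2 + v.2.1 ^ 2 + 8 * v.2.2 ^ 2} := by
    ext ⟨x, y, z⟩
    simp only [D, Set.mem_setOf_eq]
    push_cast
    constructor <;> intro h <;> linarith
  rw [e1, e2]

lemma e_eq (s : ℕ → ℤ) (d : ℕ) : e s d = (-1) ^ (GNF.nu d / 2) * ∏ p ∈ d.primeFactors, s p := rfl

lemma e_one (s : ℕ → ℤ) : e s 1 = 1 := by simp [e]

lemma c_one : c 1 = 2 := GNF.dv_tc1

lemma c'_one : c' 1 = 2 := by
  rw [c'_eq, GNF.RE 1 (by norm_num), GNF.dv_cb1]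
  simp [GNF.sn]

lemma split3 (n : ℕ) (hn : 1 < n) (h3 : n % 8 = 3) (f : ℕ → ℤ) :
    ∑ d ∈ n.divisors.filter (fun d => d % 8 = 1), f d = f 1 + ∑ d ∈ M n, f d := by
  have hM : n.divisors.filter (fun d => d % 8 = 1) = insert 1 (M n) := by
    ext d
    simp only [M, mem_filter, mem_insert, Nat.mem_divisors]
    constructor
    · rintro ⟨⟨h1, h2⟩, h8⟩
      have hd0 : 0 < d := Nat.pos_of_dvd_of_pos h1 (by omega)
      have hdn : d ≤ n := Nat.le_of_dvd (by omega) h1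
      have hne : d ≠ n := by rintro rfl; omega
      rcases Nat.lt_or_ge 1 d with h | h
      · exact Or.inr ⟨⟨h1, h2⟩, h8, h, by omega⟩
      · exact Or.inl (by omega)
    · rintro (rfl | ⟨h, h8, _, _⟩)
      · exact ⟨⟨one_dvd _, by omega⟩, by norm_num⟩
      · exact ⟨h, h8⟩
  rw [hM, Finset.sum_insert]
  simp [M]

lemma split1 (n : ℕ) (hn : 1 < n) (h1 : n % 8 = 1) (f : ℕ → ℤ) :
    ∑ d ∈ n.divisors.filter (fun d => d % 8 = 1), f d = f 1 + f n + ∑ d ∈ M n, f d := by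
  have hM : n.divisors.filter (fun d => d % 8 = 1) = insert 1 (insert n (M n)) := by
    ext d
    simp only [M, mem_filter, mem_insert, Nat.mem_divisors]
    constructor
    · rintro ⟨⟨h1, h2⟩, h8⟩
      have hd0 : 0 < d := Nat.pos_of_dvd_of_pos h1 (by omega)
      have hdn : d ≤ n := Nat.le_of_dvd (by omega) h1
      rcases Nat.lt_or_ge 1 d with h | h
      · rcases eq_or_ne d n with h4 | h4
        · exact Or.inr (Or.inl h4)
        · exact Or.inr (Or.inr ⟨⟨h1, h2⟩, h8, h, by omega⟩)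
      · exact Or.inl (by omega)
    · rintro (rfl | rfl | ⟨h, h8, _, _⟩)
      · exact ⟨⟨one_dvd _, by omega⟩, by norm_num⟩
      · exact ⟨⟨dvd_rfl, by omega⟩, h1⟩
      · exact ⟨h, h8⟩
  rw [hM, Finset.sum_insert, Finset.sum_insert, add_assoc]
  · simp [M]
  · simp only [mem_insert, M, mem_filter, not_or]
    exact ⟨by omega, fun h => by omega⟩

/-- **Genus formulas for Tunnell's numbers.** Let `n > 1` be squarefree and let `s(p) = ±1` be any signs.
(1) If `n ≡ 3 mod 8`, then `2^(ω(n)+1)` divides `c(n)` and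
    `2 c(n) + ∑ e(d) c(d) c(n/d) ≡ 8 h(n) mod 2^(ω(n)+4)`, sum over the divisors `d ≡ 1 mod 8` of `n`,
    `1 < d < n`.
(2) If `n ≡ 1 mod 8` and `e(n) = 1`, then `2^(ω(n)+1)` divides `c(n)` and `c'(n)`, and with sums over the
    same divisors `4 c(n) + ∑ e(d) c(d) c(n/d) ≡ 8 h(n) + 16 h(2n) +
    2 ∑ (c(d) + c'(d)) (c(n/d) + c'(n/d)) mod 2^(ω(n)+5)` and
    `2 (c(n) + c'(n)) + ∑ c(d) c'(n/d) ≡ 4 h(2n) mod 2^(ω(n)+3)`.
(3) Q1 holds at every such `n` for which the congruence of (1), or the first one of (2), fails with `0`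
    in place of `c(n)`. -/
theorem result (n : ℕ) [NeZero n] (hn : 1 < n) (hs : Squarefree n) (s : ℕ → ℤ)
    (hs1 : ∀ p, s p = 1 ∨ s p = -1) :
    (n % 8 = 3 →
      2 ^ (w n + 1) ∣ c n ∧
      2 * c n + ∑ d ∈ M n, e s d * (c d * c (n / d)) ≡ 8 * h n [ZMOD 2 ^ (w n + 4)] ∧
      (¬ (∑ d ∈ M n, e s d * (c d * c (n / d)) ≡ 8 * h n [ZMOD 2 ^ (w n + 4)]) →
        2 * (A n).ncard ≠ (B n).ncard ∧
        (Squarefree n ∧ Odd n ∧ 2 * (A n).ncard = (B n).ncard → congruentNumber n))) ∧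
    (n % 8 = 1 → e s n = 1 →
      2 ^ (w n + 1) ∣ c n ∧ 2 ^ (w n + 1) ∣ c' n ∧
      4 * c n + ∑ d ∈ M n, e s d * (c d * c (n / d)) ≡
        8 * h n + 16 * h (2 * n) + 2 * ∑ d ∈ M n, (c d + c' d) * (c (n / d) + c' (n / d))
        [ZMOD 2 ^ (w n + 5)] ∧
      2 * (c n + c' n) + ∑ d ∈ M n, c d * c' (n / d) ≡ 4 * h (2 * n) [ZMOD 2 ^ (w n + 3)] ∧
      (¬ (∑ d ∈ M n, e s d * (c d * c (n / d)) ≡
          8 * h n + 16 * h (2 * n) + 2 * ∑ d ∈ M n, (c d + c' d) * (c (n / d) + c' (n / d))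
          [ZMOD 2 ^ (w n + 5)]) →
        2 * (A n).ncard ≠ (B n).ncard ∧
        (Squarefree n ∧ Odd n ∧ 2 * (A n).ncard = (B n).ncard → congruentNumber n))) := by
  have hc0 : 2 * (A n).ncard = (B n).ncard → c n = 0 := by
    intro hAB
    unfold c
    have : (2 : ℤ) * ((A n).ncard : ℤ) = ((B n).ncard : ℤ) := by exact_mod_cast hAB
    linarith
  constructor
  · intro h3
    have h1 := GNF.GF n hn hs (Or.inr h3) s hs1 (fun h => by omega)
    have hD : (2 : ℤ) ^ (w n + 1) ∣ c n := GNF.DV n hs (Or.inr h3)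
    have h2 : 2 * c n + ∑ d ∈ M n, e s d * (c d * c (n / d)) ≡ 8 * h n [ZMOD 2 ^ (w n + 4)] := by
      unfold GNF.Ss at h1
      rw [split3 n hn h3] at h1
      have e0 : (-1) ^ (GNF.nu 1 / 2) * (∏ p ∈ Nat.primeFactors 1, s p) * GNF.tc 1 * GNF.tc (n / 1) =
          2 * c n := by
        rw [← e_eq, e_one, Nat.div_one, ← c_eq, ← c_eq, c_one]
        ring
      have e1 : ∑ d ∈ M n, (-1) ^ (GNF.nu d / 2) * (∏ p ∈ d.primeFactors, s p) * GNF.tc d * GNF.tc (n / d) =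
          ∑ d ∈ M n, e s d * (c d * c (n / d)) :=
        Finset.sum_congr rfl fun d _ => by rw [← e_eq, ← c_eq, ← c_eq]; ring
      rw [e0, e1] at h1
      exact h1
    refine ⟨hD, h2, ?_⟩
    intro hv
    have h4 : 2 * (A n).ncard ≠ (B n).ncard := by
      intro hAB
      rw [hc0 hAB, mul_zero, zero_add] at h2
      exact hv h2
    exact ⟨h4, fun h' => absurd h'.2.2 h4⟩
  · intro h1 hen
    have hsn : ∏ p ∈ n.primeFactors, s p = (-1) ^ (GNF.nu n / 2) := by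
      have h2 : (-1 : ℤ) ^ (GNF.nu n / 2) * ∏ p ∈ n.primeFactors, s p = 1 := by rw [← e_eq]; exact hen
      rcases neg_one_pow_eq_or ℤ (GNF.nu n / 2) with h3 | h3
      · rw [h3] at h2 ⊢
        linarith
      · rw [h3] at h2 ⊢
        linarith
    obtain ⟨v, _, hv1, hv⟩ := GNF.FINg n hn hs (Or.inl h1) s hs1 (fun _ => hsn)
    have hR := GNF.RS n hn hs h1 v (hv1 h1)
    have hE := GNF.EE n hs h1
    have hD : (2 : ℤ) ^ (w n + 1) ∣ c n := GNF.DV n hs (Or.inl h1)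
    have hD' : (2 : ℤ) ^ (w n + 1) ∣ c' n := by
      rw [c'_eq]
      exact GNF.DVe n hs h1
    have h2 : 4 * c n + ∑ d ∈ M n, e s d * (c d * c (n / d)) ≡
        8 * h n + 16 * h (2 * n) + 2 * ∑ d ∈ M n, (c d + c' d) * (c (n / d) + c' (n / d))
        [ZMOD 2 ^ (w n + 5)] := by
      rw [split1 n hn h1, split1 n hn h1] at hR
      have e0 : GNF.kap 1 v * GNF.tc 1 * GNF.tc (n / 1) + GNF.kap n v * GNF.tc n * GNF.tc (n / n) =
          4 * c n := by
        rw [hv 1 (one_dvd _) (by norm_num), hv n dvd_rfl h1, ← e_eq, ← e_eq, e_one, hen, Nat.div_one,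
          Nat.div_self (by omega), ← c_eq, ← c_eq, c_one]
        ring
      have e1 : ∑ d ∈ M n, GNF.kap d v * GNF.tc d * GNF.tc (n / d) =
          ∑ d ∈ M n, e s d * (c d * c (n / d)) :=
        Finset.sum_congr rfl fun d hd => by
          simp only [M, mem_filter, Nat.mem_divisors] at hd
          rw [hv d hd.1.1 hd.2.1, ← e_eq, ← c_eq, ← c_eq]; ring
      have e2 : ∑ d ∈ M n, (GNF.tc d + GNF.ce d) * (GNF.tc (n / d) + GNF.ce (n / d)) =
          ∑ d ∈ M n, (c d + c' d) * (c (n / d) + c' (n / d)) :=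
        Finset.sum_congr rfl fun d hd => by rw [← c'_eq, ← c'_eq, ← c_eq, ← c_eq]
      have e3 : (GNF.tc 1 + GNF.ce 1) * (GNF.tc (n / 1) + GNF.ce (n / 1)) +
          (GNF.tc n + GNF.ce n) * (GNF.tc (n / n) + GNF.ce (n / n)) = 8 * (c n + c' n) := by
        rw [Nat.div_one, Nat.div_self (by omega), ← c'_eq, ← c'_eq, ← c_eq, ← c_eq, c_one, c'_one]
        ring
      rw [e0, e1, e2, e3] at hR
      refine hR.trans ?_
      rw [Int.modEq_iff_dvd]
      obtain ⟨a, ha⟩ := hD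
      obtain ⟨b, hb⟩ := hD'
      refine ⟨-(a + b), ?_⟩
      rw [ha, hb]
      unfold h
      have e4 : (2 : ℤ) ^ (n.primeFactors.card + 5) = 16 * 2 ^ (w n + 1) := by unfold w; ring
      rw [e4]
      ring
    have h5 : 2 * (c n + c' n) + ∑ d ∈ M n, c d * c' (n / d) ≡ 4 * h (2 * n) [ZMOD 2 ^ (w n + 3)] := by
      rw [split1 n hn h1] at hE
      have e0 : GNF.tc 1 * GNF.ce (n / 1) + GNF.tc n * GNF.ce (n / n) = 2 * (c n + c' n) := by
        rw [Nat.div_one, Nat.div_self (by omega), ← c'_eq, ← c'_eq, ← c_eq, ← c_eq, c_one, c'_one]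
        ring
      have e1 : ∑ d ∈ M n, GNF.tc d * GNF.ce (n / d) = ∑ d ∈ M n, c d * c' (n / d) :=
        Finset.sum_congr rfl fun d _ => by rw [← c'_eq, ← c_eq]
      rw [e0, e1] at hE
      exact hE
    refine ⟨hD, hD', h2, h5, ?_⟩
    intro hv
    have h4 : 2 * (A n).ncard ≠ (B n).ncard := by
      intro hAB
      rw [hc0 hAB, mul_zero, zero_add] at h2
      exact hv h2
    exact ⟨h4, fun h' => absurd h'.2.2 h4⟩

end Pool.Agent.Results.MP_05dcdc_nt.GenusFormula
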