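import Pool.Agent.Lib_helper51.TM32.NFinal

set_option autoImplicit false

/-!
# Tunnell's number `c(p) = 2|A_p| - |B_p|` modulo 32, for the primes `p ≡ 1 mod 8`

`A_n`, `B_n`, congruent numbers as in the problem (`N9003ba20.A`, `N9003ba20.B`,
`N9003ba20.congruentNumber`).
-/

namespace Pool.Agent.Results.MP_05dcdc_nt.TunnellMod32

open N9003ba20 Filter Topology

/-- Tunnell's number `c(n) = 2|A_n| - |B_n|` -/
noncomputable def c (n : ℕ) : ℤ := 2 * ((A n).ncard : ℤ) - ((B n).ncard : ℤ)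

/-- the number of primes `p ≤ X` with `p ≡ 1 mod 8` -/
noncomputable def N (X : ℕ) : ℝ :=
  (((Finset.Icc 1 X).filter (fun p => p.Prime ∧ p % 8 = 1)).card : ℝ)

/-- the number of primes `p ≤ X` with `p ≡ 1 mod 8` and `c(p) ≡ r mod m` (for `0 ≤ r < m`) -/
noncomputable def P (m r : ℤ) (X : ℕ) : ℝ :=
  (((Finset.Icc 1 X).filter (fun p => p.Prime ∧ p % 8 = 1 ∧ c p % m = r)).card : ℝ)

open Classical in
/-- the number of primes `p ≤ X` with `p ≡ 1 mod 8` which satisfy the hypothesis of Q1,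
`2|A_p| = |B_p|` -/
noncomputable def Hyp (X : ℕ) : ℝ :=
  (((Finset.Icc 1 X).filter (fun p => p.Prime ∧ p % 8 = 1 ∧ 2 * (A p).ncard = (B p).ncard)).card : ℝ)

open Classical in
/-- the number of primes `p ≤ X` with `p ≡ 1 mod 8` at which the statement of Q1 is true -/
noncomputable def Holds (X : ℕ) : ℝ :=
  (((Finset.Icc 1 X).filter (fun p => p.Prime ∧ p % 8 = 1 ∧
    (Squarefree p ∧ Odd p ∧ 2 * (A p).ncard = (B p).ncard → congruentNumber p))).card : ℝ)

/-- (1) Among the primes `p ≤ X`, `p ≡ 1 mod 8`, the numbers of those with `c(p) ≡ 0 mod 32` and of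
those with `c(p) ≡ 16 mod 32` differ by at most `C X^(1-δ)`, with constants `C` and `δ > 0`.
(2) In natural density, among the primes `p ≡ 1 mod 8`: `c(p) ≡ 8 mod 16` for one half,
`c(p) ≡ 16 mod 32` for one quarter, `c(p) ≡ 0 mod 32` for one quarter.
(3) So at most a quarter of the primes `p ≡ 1 mod 8` satisfy the hypothesis `2|A_p| = |B_p|` of Q1,
and the statement of Q1 is true for at least three quarters of them. -/
theorem result :
    (∃ δ : ℝ, 0 < δ ∧ ∃ C : ℝ, ∀ X : ℕ, 1 ≤ X →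
      |P 32 0 X - P 32 16 X| ≤ C * (X : ℝ) ^ (1 - δ)) ∧
    Tendsto (fun X : ℕ => P 16 8 X / N X) atTop (𝓝 (1 / 2)) ∧
    Tendsto (fun X : ℕ => P 32 16 X / N X) atTop (𝓝 (1 / 4)) ∧
    Tendsto (fun X : ℕ => P 32 0 X / N X) atTop (𝓝 (1 / 4)) ∧
    (∀ ε : ℝ, 0 < ε → ∀ᶠ X : ℕ in atTop,
      Hyp X ≤ (1 / 4 + ε) * N X ∧ (3 / 4 - ε) * N X ≤ N X - Hyp X ∧ N X - Hyp X ≤ Holds X) := by
  have h32 : Tendsto (fun X : ℕ => P 32 0 X / N X) atTop (𝓝 (1 / 4)) := TM32.lim32
  refine ⟨TM32.main_theorem, TM32.lim8, TM32.lim16, h32, ?_⟩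
  intro ε hε
  have hN : ∀ᶠ X : ℕ in atTop, 0 < N X := TM32.NN_pos
  have h1 : ∀ᶠ X : ℕ in atTop, P 32 0 X / N X < 1 / 4 + ε :=
    h32.eventually_lt_const (by linarith)
  have hHyp : ∀ X, Hyp X ≤ P 32 0 X := by
    intro X
    unfold Hyp P
    apply Nat.cast_le.2
    apply Finset.card_le_card
    intro p hp
    simp only [Finset.mem_filter] at hp ⊢
    refine ⟨hp.1, hp.2.1, hp.2.2.1, ?_⟩
    have : c p = 0 := by
      unfold c
      have h := hp.2.2.2
      have h' : (2 : ℤ) * ((A p).ncard : ℤ) = ((B p).ncard : ℤ) := by exact_mod_cast h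
      linarith
    rw [this]
    rfl
  have hHolds : ∀ X, N X ≤ Hyp X + Holds X := by
    intro X
    unfold N Hyp Holds
    rw [← Nat.cast_add]
    apply Nat.cast_le.2
    refine (Finset.card_le_card ?_).trans (Finset.card_union_le _ _)
    intro p hp
    simp only [Finset.mem_filter, Finset.mem_union] at hp ⊢
    by_cases h : 2 * (A p).ncard = (B p).ncard
    · exact Or.inl ⟨hp.1, hp.2.1, hp.2.2, h⟩
    · exact Or.inr ⟨hp.1, hp.2.1, hp.2.2, fun h' => absurd h'.2.2 h⟩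
  filter_upwards [hN, h1] with X hX h2
  have h3 := (div_lt_iff₀ hX).1 h2
  have h4 := hHyp X
  have h5 := hHolds X
  refine ⟨by linarith, by linarith, by linarith⟩

end Pool.Agent.Results.MP_05dcdc_nt.TunnellMod32
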